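import Pool.Agent.Lib.MP_f10bf7_al_h59.Iso
import Pool.Agent.Lib.MP_f10bf7_al_h59.Dichotomy

set_option autoImplicit false

namespace Pool.Agent.Results.MP_f10bf7_al.InjectorsExist

/-- For every non-empty Fitting class `X` of finite soluble groups, every finite group `G`, soluble or
not, has an `X`-injector: a subgroup `V` such that, for every subnormal subgroup `N` of `G`,
`V ⊓ N` is `X`-maximal in `N`. -/
theorem result :
    ∀ X : ∀ (G : Type) [Group G], Prop,
      (∀ (G H : Type) [Group G] [Group H] [Finite G], (G ≃* H) → X G → X H) →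
      (∀ (G : Type) [Group G] [Finite G], X G → ∀ N : Subgroup G, N.Normal → X ↥N) →
      (∀ (G : Type) [Group G] [Finite G] (N M : Subgroup G),
          N.Normal → M.Normal → X ↥N → X ↥M → X ↥(N ⊔ M)) →
      (∀ (G : Type) [Group G] [Finite G], X G → Group.IsSolvable G) →
      (∃ (G : Type) (_ : Group G), Finite G ∧ X G) →
      ∀ (G : Type) [Group G] [Finite G],
        ∃ V : Subgroup G, ∀ N : Subgroup G,
          (∃ (n : ℕ) (f : ℕ → Subgroup G), f 0 = N ∧ f n = ⊤ ∧
              ∀ i < n, f i ≤ f (i + 1) ∧ ((f i).subgroupOf (f (i + 1))).Normal) →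
          X ↥(V ⊓ N) ∧ ∀ K : Subgroup G, V ⊓ N ≤ K → K ≤ N → X ↥K → K = V ⊓ N := by
  intro X h1 h2 h3 h4 h5 G _ _
  rcases Pool.Agent.Iso59.Dichotomy.dichotomy X h1 h2 h3 h4 h5 G with h | h
  · exact h
  · exfalso
    obtain ⟨p, q, hp, hq, -, -, -, -, -, S, iS, K, f, hf, hsimple, hne, x, y, hx, hy, hix, hiy,
      hgen⟩ := h
    have hfin : Finite S := Finite.of_surjective f hf
    exact Pool.Agent.Iso59.no_pair hsimple hne hp hq hx hy hix hiy hgen

end Pool.Agent.Results.MP_f10bf7_al.InjectorsExist
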